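import Pool.Agent.PrimeSig.Defs
import Pool.Agent.CoprimeSig.Coroot
import Pool.Agent.CoprimeSig.HSum

/-!
# The operator with eigenvalues `1` and `-1`, and the coroots
-/

set_option autoImplicit false
set_option linter.unusedSectionVars false

universe u

namespace Pool.Agent.PrimeSig

open Module Pool.Agent.CoprimeSig

variable {ι : Type} [Fintype ι] [DecidableEq ι] {g t : Submodule ℂ (Matrix ι ι ℂ)}
  {J E : Matrix ι ι ℝ} {K : Type} [Field K] [NumberField K] {R : K →+* Matrix ι ι ℚ}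

/-- Two matrices which agree on the eigenspaces of `K` are equal. -/
private theorem tor_ext (R : K →+* Matrix ι ι ℚ) {A B : Matrix ι ι ℂ}
    (h : ∀ σ, ∀ w ∈ HS R σ, A.mulVec w = B.mulVec w) : A = B := by
  have h1 : (⨆ σ, HS R σ) ≤ LinearMap.eqLocus (Matrix.toLin' A) (Matrix.toLin' B) := by
    refine iSup_le fun σ w hw => ?_
    rw [LinearMap.mem_eqLocus, Matrix.toLin'_apply, Matrix.toLin'_apply]
    exact h σ w hw
  rw [(HS_decomp R).1] at h1
  apply (Matrix.toLin' (R := ℂ)).injective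
  refine LinearMap.ext fun w => ?_
  have h2 := h1 (Submodule.mem_top (x := w))
  rwa [LinearMap.mem_eqLocus] at h2

/-- A matrix commuting with `K` preserves the eigenspaces. -/
private theorem tor_pres {x : Matrix ι ι ℂ} (hx : ∀ r, x * ratM (R r) = ratM (R r) * x)
    (σ : K →+* ℂ) {w : ι → ℂ} (hw : w ∈ HS R σ) : x.mulVec w ∈ HS R σ := by
  rw [mem_HS]
  intro r
  rw [Matrix.mulVec_mulVec, ← hx r, ← Matrix.mulVec_mulVec, hw r, Matrix.mulVec_smul]

/-- The sum of the eigenspaces for a set of embeddings and its complement. -/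
private theorem tor_compl (R : K →+* Matrix ι ι ℚ) (S : Set (K →+* ℂ)) :
    IsCompl (VS R S) (VS R Sᶜ) := by
  obtain ⟨htop, hind, -⟩ := HS_decomp R
  refine ⟨hind.disjoint_biSup_biSup disjoint_compl_right, ?_⟩
  rw [codisjoint_iff, eq_top_iff, ← htop]
  refine iSup_le fun τ => ?_
  by_cases h : τ ∈ S
  · exact le_sup_of_le_left (le_iSup₂_of_le τ h le_rfl)
  · exact le_sup_of_le_right (le_iSup₂_of_le τ h le_rfl)

private theorem tor_le_VS (R : K →+* Matrix ι ι ℚ) {S : Set (K →+* ℂ)} {σ : K →+* ℂ}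
    (hσ : σ ∈ S) : HS R σ ≤ VS R S :=
  le_iSup₂_of_le (f := fun (σ : K →+* ℂ) (_ : σ ∈ S) => HS R σ) σ hσ le_rfl

/-- U4 (file Tor.lean): the operator with eigenvalues `1` and `-1`. -/
theorem exists_T (R : K →+* Matrix ι ι ℚ) (S : Set (K →+* ℂ)) :
    ∃ T : Matrix ι ι ℂ, T * T = 1 ∧
      (∀ x : Matrix ι ι ℂ, (∀ r, x * ratM (R r) = ratM (R r) * x) → x * T = T * x) ∧
      (∀ σ ∈ S, ∀ w ∈ HS R σ, T.mulVec w = w) ∧
      (∀ σ, σ ∉ S → ∀ w ∈ HS R σ, T.mulVec w = -w) ∧
      VS R S = Module.End.eigenspace (Matrix.toLin' T) 1 := by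
  have hc := tor_compl R S
  let p : (ι → ℂ) →ₗ[ℂ] (ι → ℂ) := (VS R S).subtype ∘ₗ (VS R S).projectionOnto _ hc
  have hp1 : ∀ w ∈ VS R S, p w = w := by
    intro w hw
    have := Submodule.projectionOnto_apply_left hc ⟨w, hw⟩
    exact congrArg Subtype.val this
  have hp2 : ∀ w ∈ VS R Sᶜ, p w = 0 := by
    intro w hw
    have h1 : (VS R S).projectionOnto _ hc w = 0 :=
      (Submodule.projectionOnto_apply_eq_zero_iff hc).2 hw
    change ((VS R S).projectionOnto _ hc w : ι → ℂ) = 0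
    rw [h1]
    rfl
  set T : Matrix ι ι ℂ := (2 : ℂ) • LinearMap.toMatrix' p - 1 with hT
  have hTw : ∀ w, T.mulVec w = (2 : ℂ) • p w - w := by
    intro w
    rw [hT, Matrix.sub_mulVec, Matrix.smul_mulVec, Matrix.one_mulVec, ← Matrix.toLin'_apply,
      Matrix.toLin'_toMatrix']
  have hT1 : ∀ σ ∈ S, ∀ w ∈ HS R σ, T.mulVec w = w := by
    intro σ hσ w hw
    rw [hTw, hp1 w (tor_le_VS R hσ hw), two_smul, add_sub_cancel_right]
  have hT2 : ∀ σ, σ ∉ S → ∀ w ∈ HS R σ, T.mulVec w = -w := by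
    intro σ hσ w hw
    rw [hTw, hp2 w (tor_le_VS R (S := Sᶜ) hσ hw), smul_zero, zero_sub]
  refine ⟨T, ?_, ?_, hT1, hT2, ?_⟩
  · refine tor_ext R fun σ w hw => ?_
    rw [← Matrix.mulVec_mulVec, Matrix.one_mulVec]
    by_cases hσ : σ ∈ S
    · rw [hT1 σ hσ w hw, hT1 σ hσ w hw]
    · rw [hT2 σ hσ w hw, Matrix.mulVec_neg, hT2 σ hσ w hw, neg_neg]
  · intro x hx
    refine tor_ext R fun σ w hw => ?_
    rw [← Matrix.mulVec_mulVec, ← Matrix.mulVec_mulVec]
    by_cases hσ : σ ∈ S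
    · rw [hT1 σ hσ w hw, hT1 σ hσ _ (tor_pres hx σ hw)]
    · rw [hT2 σ hσ w hw, hT2 σ hσ _ (tor_pres hx σ hw), Matrix.mulVec_neg]
  · apply le_antisymm
    · intro w hw
      rw [Module.End.mem_eigenspace_iff, Matrix.toLin'_apply, hTw, hp1 w hw, two_smul,
        add_sub_cancel_right, one_smul]
    · intro w hw
      rw [Module.End.mem_eigenspace_iff, Matrix.toLin'_apply, hTw, one_smul] at hw
      have h1 : p w = w := by
        have h2 : (2 : ℂ) • p w = (2 : ℂ) • w := by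
          rw [sub_eq_iff_eq_add] at hw
          rw [hw, two_smul]
        exact smul_right_injective _ (two_ne_zero' ℂ) h2
      rw [← h1]
      exact ((VS R S).projectionOnto _ hc w).2

/-- U4: skewness of `T`. -/
theorem T_skew (R : K →+* Matrix ι ι ℚ) (S : Set (K →+* ℂ))
    (hS : ∀ σ, σ ∈ S ↔ (starRingEnd ℂ).comp σ ∉ S) {T : Matrix ι ι ℂ}
    (hT1 : ∀ σ ∈ S, ∀ w ∈ HS R σ, T.mulVec w = w)
    (hT2 : ∀ σ, σ ∉ S → ∀ w ∈ HS R σ, T.mulVec w = -w)
    (c : K →+* K) (hc : ∀ (σ : K →+* ℂ) (r : K), σ (c r) = starRingEnd ℂ (σ r))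
    (F : Matrix ι ι ℂ) (hF : ∀ r, (ratM (R r)).transpose * F = F * ratM (R (c r))) :
    T.transpose * F = -(F * T) := by
  -- the form vanishes on eigenspaces which are not conjugate
  have h0 : ∀ σ σ' : K →+* ℂ, σ ≠ (starRingEnd ℂ).comp σ' → ∀ u ∈ HS R σ, ∀ v ∈ HS R σ',
      u ⬝ᵥ F.mulVec v = 0 := by
    intro σ σ' hσ u hu v hv
    obtain ⟨r, hr⟩ : ∃ r, σ r ≠ (starRingEnd ℂ) (σ' r) := by
      by_contra hcon
      push Not at hcon
      exact hσ (RingHom.ext hcon)
    have h1 : (ratM (R r)).mulVec u ⬝ᵥ F.mulVec v = u ⬝ᵥ F.mulVec ((ratM (R (c r))).mulVec v) := by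
      rw [Matrix.mulVec_mulVec, ← hF r, ← Matrix.mulVec_mulVec, Matrix.dotProduct_mulVec u,
        Matrix.vecMul_transpose]
    rw [hu r, hv (c r), hc, smul_dotProduct, Matrix.mulVec_smul, dotProduct_smul, smul_eq_mul,
      smul_eq_mul] at h1
    have h2 : (σ r - (starRingEnd ℂ) (σ' r)) * (u ⬝ᵥ F.mulVec v) = 0 := by
      rw [sub_mul, h1, sub_self]
    exact (mul_eq_zero.1 h2).resolve_left (sub_ne_zero.2 hr)
  have hsame : ∀ σ σ' : K →+* ℂ, (σ ∈ S ↔ σ' ∈ S) → σ ≠ (starRingEnd ℂ).comp σ' := by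
    intro σ σ' h h'
    have h1 := hS σ'
    rw [← h', h] at h1
    exact iff_not_self h1
  rw [eq_neg_iff_add_eq_zero]
  refine tor_ext R fun σ' v hv => ?_
  rw [Matrix.zero_mulVec]
  apply dotProduct_eq_zero
  intro u
  rw [dotProduct_comm]
  -- reduce to eigenvectors
  have hsub : (⨆ σ, HS R σ) ≤ LinearMap.ker ((LinearMap.flip (dotProductBilin ℂ ℂ))
      ((T.transpose * F + F * T).mulVec v)) := by
    refine iSup_le fun σ u hu => ?_
    rw [LinearMap.mem_ker]
    change u ⬝ᵥ (T.transpose * F + F * T).mulVec v = 0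
    rw [Matrix.add_mulVec, dotProduct_add, ← Matrix.mulVec_mulVec, ← Matrix.mulVec_mulVec,
      Matrix.dotProduct_mulVec u, Matrix.vecMul_transpose]
    by_cases hσ : σ ∈ S <;> by_cases hσ' : σ' ∈ S
    · rw [hT1 σ hσ u hu, hT1 σ' hσ' v hv,
        h0 σ σ' (hsame σ σ' (by simp [hσ, hσ'])) u hu v hv, add_zero]
    · rw [hT1 σ hσ u hu, hT2 σ' hσ' v hv, Matrix.mulVec_neg, dotProduct_neg, add_neg_cancel]
    · rw [hT2 σ hσ u hu, hT1 σ' hσ' v hv, neg_dotProduct, neg_add_cancel]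
    · rw [hT2 σ hσ u hu, hT2 σ' hσ' v hv, Matrix.mulVec_neg, dotProduct_neg, neg_dotProduct,
        h0 σ σ' (hsame σ σ' (by simp [hσ, hσ'])) u hu v hv, neg_zero, add_zero]
  rw [(HS_decomp R).1] at hsub
  exact LinearMap.mem_ker.1 (hsub (Submodule.mem_top (x := u)))

/-- The polarisation is invertible. -/
private theorem tor_det (D : MTData g J E) : (E.map Complex.ofReal).det ≠ 0 := by
  have h1 : (J.transpose * E).det ≠ 0 := D.pos.det_pos.ne'
  rw [Matrix.det_mul] at h1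
  have h2 : E.det ≠ 0 := right_ne_zero_of_mul h1
  have h3 : (E.map Complex.ofReal).det = ((E.det : ℝ) : ℂ) :=
    (RingHom.map_det Complex.ofRealHom E).symm
  rw [h3]
  exact_mod_cast h2

/-- The multiplier of an element of `g`. -/
private theorem tor_mult [Nonempty ι] (D : MTData g J E) {x : Matrix ι ι ℂ} (hx : x ∈ g) :
    x.transpose * E.map Complex.ofReal + E.map Complex.ofReal * x =
      (2 * x.trace / Fintype.card ι) • E.map Complex.ofReal := by
  obtain ⟨κ, hκ⟩ := D.sim x hx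
  have hdet := tor_det D
  set F := E.map Complex.ofReal with hF
  have hFF : F * F⁻¹ = 1 := Matrix.mul_nonsing_inv F (isUnit_iff_ne_zero.mpr hdet)
  have hFF' : F⁻¹ * F = 1 := Matrix.nonsing_inv_mul F (isUnit_iff_ne_zero.mpr hdet)
  have h1 : x.transpose + F * x * F⁻¹ = κ • (1 : Matrix ι ι ℂ) := by
    have h2 := congrArg (fun M => M * F⁻¹) hκ
    simp only [Matrix.add_mul, Matrix.smul_mul, Matrix.mul_assoc, hFF, Matrix.mul_one] at h2
    rw [Matrix.mul_assoc]
    exact h2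
  have h3 := congrArg Matrix.trace h1
  rw [Matrix.trace_add, Matrix.trace_transpose, Matrix.trace_smul, Matrix.trace_one,
    Matrix.mul_assoc, Matrix.trace_mul_comm F, Matrix.mul_assoc, hFF', Matrix.mul_one,
    smul_eq_mul] at h3
  have hc : (Fintype.card ι : ℂ) ≠ 0 := by
    exact_mod_cast Fintype.card_ne_zero
  rw [hκ]
  congr 1
  rw [eq_div_iff hc, ← h3]
  ring

private theorem tor_map_mulVec (τ : ℂ →+* ℂ) (x : Matrix ι ι ℂ) (u : ι → ℂ) :
    (x.map τ).mulVec (fun i => τ (u i)) = fun i => τ (x.mulVec u i) := by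
  funext i
  simp only [Matrix.mulVec, dotProduct, Matrix.map_apply, map_sum, map_mul]

/-- The eigenspaces are conjugate. -/
private theorem tor_HS (τ : ℂ →+* ℂ) (R : K →+* Matrix ι ι ℚ) (σ : K →+* ℂ) :
    cj τ (HS R σ) = HS R (τ.comp σ) := by
  apply Submodule.eq_of_le_of_finrank_eq (cj_HS_le τ R σ)
  rw [cj_rank]
  have h1 := (HS_decomp R).2.2 σ
  have h2 := (HS_decomp R).2.2 (τ.comp σ)
  have h3 : 0 < finrank ℚ K := finrank_pos
  exact Nat.eq_of_mul_eq_mul_right h3 (h1.trans h2.symm)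

/-- Composition with an endomorphism of `ℂ` which preserves `S` permutes the embeddings
in `S`. -/
private theorem tor_surj {S : Set (K →+* ℂ)} (τ : ℂ →+* ℂ) (hτ : ∀ σ ∈ S, τ.comp σ ∈ S)
    {σ : K →+* ℂ} (hσ : σ ∈ S) : ∃ σ' ∈ S, τ.comp σ' = σ := by
  have hinj : Function.Injective (fun φ : S => (⟨τ.comp φ.1, hτ φ.1 φ.2⟩ : S)) := by
    intro φ ψ h
    apply Subtype.ext
    ext x
    exact τ.injective (congrArg (fun f : K →+* ℂ => f x) (congrArg Subtype.val h))
  obtain ⟨σ', hσ'⟩ := Finite.injective_iff_surjective.mp hinj ⟨σ, hσ⟩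
  exact ⟨σ'.1, σ'.2, congrArg Subtype.val hσ'⟩

/-- The set `S` contains half of the embeddings. -/
private theorem tor_half (S : Set (K →+* ℂ)) [DecidablePred fun σ : K →+* ℂ => σ ∈ S]
    (hS : ∀ σ, σ ∈ S ↔ (starRingEnd ℂ).comp σ ∉ S) :
    2 * Fintype.card {σ : K →+* ℂ // σ ∈ S} = finrank ℚ K := by
  have hcc : ∀ σ : K →+* ℂ, (starRingEnd ℂ).comp ((starRingEnd ℂ).comp σ) = σ := by
    intro σ
    ext x
    simp
  have hcard : Fintype.card {σ : K →+* ℂ // σ ∈ S} =
      Fintype.card {σ : K →+* ℂ // ¬ σ ∈ S} := by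
    refine Fintype.card_congr ⟨fun σ => ⟨(starRingEnd ℂ).comp σ.1, (hS σ.1).1 σ.2⟩,
      fun σ => ⟨(starRingEnd ℂ).comp σ.1, ?_⟩, ?_, ?_⟩
    · rw [hS, hcc]
      exact σ.2
    · intro σ
      exact Subtype.ext (hcc σ.1)
    · intro σ
      exact Subtype.ext (hcc σ.1)
  have h1 := Fintype.card_subtype_compl (fun σ : K →+* ℂ => σ ∈ S)
  have h2 := Fintype.card_subtype_le (fun σ : K →+* ℂ => σ ∈ S)
  have h3 := NumberField.Embeddings.card K ℂ
  omega

/-- U4: from the diagonal elements of `t` on `VS R S'` to the coroots. -/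
theorem coroots (D : MTData g J E) (hK : ∀ r, ∀ x ∈ g, x * ratM (R r) = ratM (R r) * x)
    (htg : t ≤ g) (hone : (1 : Matrix ι ι ℂ) ∈ t) (hconj : ∀ σ : ℂ →+* ℂ, ∀ x ∈ t, x.map σ ∈ t)
    (S S' : Set (K →+* ℂ)) (hS : ∀ σ, σ ∈ S ↔ (starRingEnd ℂ).comp σ ∉ S) (hS' : S' ⊆ S)
    (σ₀ : K →+* ℂ) (hσ₀ : σ₀ ∈ S')
    (htr : ∀ σ ∈ S, ∃ τ : ℂ →+* ℂ, τ.comp σ₀ = σ ∧ ∀ σ' ∈ S, τ.comp σ' ∈ S)
    {n a : ℕ} (ha0 : a ≠ 0) (ha : 4 * a ≠ Fintype.card ι)
    (v : Basis (Fin n) ℂ (VS R S')) (x : Fin n → Matrix ι ι ℂ) (hxt : ∀ i, x i ∈ t)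
    (hxv : ∀ i j, (x i).mulVec (v j : ι → ℂ) = if j = i then (v j : ι → ℂ) else 0)
    (hx0 : ∀ i, ∀ σ ∈ S, σ ∉ S' → ∀ w ∈ HS R σ, (x i).mulVec w = 0)
    (hxtr : ∀ i, (x i).trace = (Fintype.card ι : ℂ) / (2 * a)) :
    ∃ (I : Type) (_ : Fintype I) (_ : DecidableEq I) (w : I → ι → ℂ), LinearIndependent ℂ w ∧
      (Submodule.span ℂ (Set.range w) : Submodule ℂ (ι → ℂ)) = VS R S ∧
      ∀ i, ∃ c ∈ t, (∀ j, c.mulVec (w j) = if j = i then w j else 0) ∧
        c.transpose * E.map Complex.ofReal + E.map Complex.ofReal * c = 0 := by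
  classical
  -- vectors of `VS R S'` in the basis
  have hrepr : ∀ u (hu : u ∈ VS R S'), u = ∑ j, (v.repr ⟨u, hu⟩ j) • (v j : ι → ℂ) := by
    intro u hu
    have h3 := congrArg (VS R S').subtype (v.sum_repr ⟨u, hu⟩)
    rw [map_sum] at h3
    exact h3.symm
  have hxu : ∀ i u (hu : u ∈ VS R S'), (x i).mulVec u = (v.repr ⟨u, hu⟩ i) • (v i : ι → ℂ) := by
    intro i u hu
    conv_lhs => rw [hrepr u hu]
    rw [Matrix.mulVec_sum, Finset.sum_eq_single i]
    · rw [Matrix.mulVec_smul, hxv, if_pos rfl]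
    · intro j _ hj
      rw [Matrix.mulVec_smul, hxv, if_neg hj, smul_zero]
    · intro h
      exact absurd (Finset.mem_univ i) h
  have hxK : ∀ i r, x i * ratM (R r) = ratM (R r) * x i := fun i r => hK r _ (htg (hxt i))
  -- the part of the basis in the eigenspace of `σ₀`
  let Q : Type := {j : Fin n // (v j : ι → ℂ) ∈ HS R σ₀}
  let _ : Fintype Q := inferInstanceAs (Fintype {j : Fin n // (v j : ι → ℂ) ∈ HS R σ₀})
  let _ : DecidableEq Q := inferInstanceAs (DecidableEq {j : Fin n // (v j : ι → ℂ) ∈ HS R σ₀})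
  have hliQ : LinearIndependent ℂ (fun j : Q => (v j.1 : ι → ℂ)) := by
    have h1 : LinearIndependent ℂ (fun j => (v j : ι → ℂ)) :=
      v.linearIndependent.map' (VS R S').subtype (Submodule.ker_subtype _)
    exact h1.comp _ Subtype.val_injective
  have hQspan : HS R σ₀ = Submodule.span ℂ (Set.range fun j : Q => (v j.1 : ι → ℂ)) := by
    apply le_antisymm
    · intro u hu
      have hu' : u ∈ VS R S' := tor_le_VS R hσ₀ hu
      rw [hrepr u hu']
      refine Submodule.sum_mem _ fun j _ => ?_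
      by_cases hj : v.repr ⟨u, hu'⟩ j = 0
      · rw [hj, zero_smul]
        exact Submodule.zero_mem _
      · have h1 : (x j).mulVec u ∈ HS R σ₀ := tor_pres (hxK j) σ₀ hu
        rw [hxu j u hu'] at h1
        have h2 : (v j : ι → ℂ) ∈ HS R σ₀ := (Submodule.smul_mem_iff _ hj).1 h1
        exact Submodule.smul_mem _ _ (Submodule.subset_span ⟨⟨j, h2⟩, rfl⟩)
    · rw [Submodule.span_le]
      rintro _ ⟨j, rfl⟩
      exact j.2
  have hQcard : finrank ℂ (HS R σ₀) = Fintype.card Q := by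
    rw [hQspan, finrank_span_eq_card hliQ]
  -- the elements `x i` vanish on the other eigenspaces
  have hxσ : ∀ j : Q, ∀ σ ∈ S, σ ≠ σ₀ → ∀ u ∈ HS R σ, (x j.1).mulVec u = 0 := by
    intro j σ hσ hne u hu
    by_cases hσ' : σ ∈ S'
    · have h1 : (x j.1).mulVec u ∈ HS R σ := tor_pres (hxK j.1) σ hu
      have h2 : (x j.1).mulVec u ∈ HS R σ₀ := by
        rw [hxu j.1 u (tor_le_VS R hσ' hu)]
        exact Submodule.smul_mem _ _ j.2
      have h3 := ((HS_decomp R).2.1.pairwiseDisjoint hne).le_bot ⟨h1, h2⟩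
      exact (Submodule.mem_bot ℂ).1 h3
    · exact hx0 j.1 σ hσ hσ' u hu
  choose τ hτ using fun σ : {σ : K →+* ℂ // σ ∈ S} => htr σ.1 σ.2
  set w : {σ : K →+* ℂ // σ ∈ S} × Q → ι → ℂ :=
    fun p i => τ p.1 ((v p.2.1 : ι → ℂ) i) with hw
  set y : {σ : K →+* ℂ // σ ∈ S} × Q → Matrix ι ι ℂ := fun p => (x p.2.1).map (τ p.1) with hy
  have hyt : ∀ p, y p ∈ t := fun p => hconj _ _ (hxt _)
  have hwHS : ∀ p, w p ∈ HS R p.1.1 := by
    intro p
    have h1 : w p ∈ cj (τ p.1) (HS R σ₀) := Submodule.subset_span ⟨_, p.2.2, rfl⟩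
    rw [tor_HS, (hτ p.1).1] at h1
    exact h1
  have hyw : ∀ p q, (y p).mulVec (w q) = if q = p then w q else 0 := by
    intro p q
    by_cases hpq : q.1 = p.1
    · simp only [hw, hy, hpq]
      rw [tor_map_mulVec, hxv]
      by_cases h2 : q.2 = p.2
      · rw [if_pos (congrArg Subtype.val h2), if_pos (Prod.ext hpq h2)]
      · rw [if_neg (fun h => h2 (Subtype.ext h)), if_neg (fun h => h2 (congrArg Prod.snd h))]
        funext i
        simp
    · rw [if_neg (fun h => hpq (congrArg Prod.fst h))]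
      obtain ⟨σ', hσS, hσ'⟩ := tor_surj (τ p.1) (hτ p.1).2 q.1.2
      have h1 : σ' ≠ σ₀ := by
        intro h
        apply hpq
        apply Subtype.ext
        rw [← hσ', h, (hτ p.1).1]
      have h3 : w q ∈ cj (τ p.1) (HS R σ') := by
        rw [tor_HS, hσ']
        exact hwHS q
      unfold cj at h3
      refine Submodule.span_induction (p := fun u _ => (y p).mulVec u = 0) ?_ ?_ ?_ ?_ h3
      · rintro _ ⟨u, hu, rfl⟩
        simp only [hy]
        rw [tor_map_mulVec, hxσ p.2 σ' hσS h1 u hu]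
        funext i
        simp
      · exact Matrix.mulVec_zero _
      · intro u u' _ _ h4 h5
        rw [Matrix.mulVec_add, h4, h5, add_zero]
      · intro c u _ h4
        rw [Matrix.mulVec_smul, h4, smul_zero]
  have hw0 : ∀ p, w p ≠ 0 := by
    intro p h
    apply v.ne_zero p.2.1
    apply Subtype.ext
    funext i
    have h1 := congrFun h i
    simp only [hw] at h1
    have h2 : τ p.1 ((v p.2.1 : ι → ℂ) i) = τ p.1 0 := by rw [h1, map_zero]; rfl
    exact (τ p.1).injective h2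
  have hli : LinearIndependent ℂ w := by
    rw [Fintype.linearIndependent_iff]
    intro c hc p
    have h1 := congrArg (y p).mulVec hc
    rw [Matrix.mulVec_zero] at h1
    have h2 : (y p).mulVec (∑ q, c q • w q) = c p • w p := by
      rw [Matrix.mulVec_sum]
      rw [Finset.sum_eq_single p]
      · rw [Matrix.mulVec_smul, hyw, if_pos rfl]
      · intro q _ hq
        rw [Matrix.mulVec_smul, hyw, if_neg hq, smul_zero]
      · intro h
        exact absurd (Finset.mem_univ p) h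
    rw [h2] at h1
    exact (smul_eq_zero.mp h1).resolve_right (hw0 p)
  have hspanσ : ∀ σ : {σ : K →+* ℂ // σ ∈ S}, HS R σ.1 ≤ Submodule.span ℂ (Set.range w) := by
    intro σ
    have h1 : HS R σ.1 = cj (τ σ) (HS R σ₀) := by rw [tor_HS, (hτ σ).1]
    rw [h1, cj_le_iff, hQspan, Submodule.span_le]
    rintro _ ⟨j, rfl⟩
    exact Submodule.subset_span ⟨(σ, j), rfl⟩
  have hspan : (Submodule.span ℂ (Set.range w) : Submodule ℂ (ι → ℂ)) = VS R S := by
    apply le_antisymm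
    · rw [Submodule.span_le]
      rintro _ ⟨p, rfl⟩
      exact tor_le_VS R p.1.2 (hwHS p)
    · exact iSup₂_le fun σ hσ => hspanσ ⟨σ, hσ⟩
  refine ⟨_, inferInstance, inferInstance, w, hli, hspan, ?_⟩
  intro p
  have hne : Nonempty ι := by
    by_contra h
    rw [not_nonempty_iff] at h
    exact hw0 p (Subsingleton.elim _ _)
  set Y : Matrix ι ι ℂ := ∑ q, y q with hY
  have hYt : Y ∈ t := Submodule.sum_mem _ fun q _ => hyt q
  have hc : (Fintype.card ι : ℂ) ≠ 0 := by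
    exact_mod_cast Fintype.card_ne_zero
  have ha' : (a : ℂ) ≠ 0 := by exact_mod_cast ha0
  have hytr : ∀ q, (y q).trace = (Fintype.card ι : ℂ) / (2 * a) := by
    intro q
    have h1 : (y q).trace = τ q.1 ((x q.2.1).trace) := by
      simp only [hy, Matrix.trace, Matrix.diag, Matrix.map_apply, map_sum]
    rw [h1, hxtr, map_div₀, map_mul, map_natCast, map_natCast, map_ofNat]
  have hcardI : (Fintype.card ({σ : K →+* ℂ // σ ∈ S} × Q) : ℂ) = Fintype.card ι / 2 := by
    have h1 := tor_half S hS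
    have h2 := (HS_decomp R).2.2 σ₀
    rw [hQcard, ← h1] at h2
    rw [Fintype.card_prod, ← h2]
    push_cast
    ring
  have hYtr : Y.trace = (Fintype.card ι : ℂ) ^ 2 / (4 * a) := by
    rw [hY, Matrix.trace_sum, Finset.sum_congr rfl (fun q _ => hytr q), Finset.sum_const,
      Finset.card_univ, nsmul_eq_mul, hcardI]
    field_simp
    ring
  set κ : ℂ := (Fintype.card ι : ℂ) / (2 * a) - 2 with hκ
  have hκ0 : κ ≠ 0 := by
    intro h
    rw [hκ, sub_eq_zero, div_eq_iff (by simpa using ha0)] at h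
    apply ha
    have : ((Fintype.card ι : ℕ) : ℂ) = ((4 * a : ℕ) : ℂ) := by
      rw [h]
      push_cast
      ring
    exact (by exact_mod_cast this : Fintype.card ι = 4 * a).symm
  refine ⟨y p - (1 / (a * κ)) • (Y - 1), ?_, ?_, ?_⟩
  · exact t.sub_mem (hyt p) (t.smul_mem _ (t.sub_mem hYt hone))
  · intro q
    have h1 : Y.mulVec (w q) = w q := by
      rw [hY, Matrix.sum_mulVec, Finset.sum_eq_single q]
      · rw [hyw, if_pos rfl]
      · intro q' _ hq'
        rw [hyw, if_neg (fun h => hq' h.symm)]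
      · intro h
        exact absurd (Finset.mem_univ q) h
    rw [Matrix.sub_mulVec, Matrix.smul_mulVec, Matrix.sub_mulVec, h1, Matrix.one_mulVec, sub_self,
      smul_zero, sub_zero, hyw]
  · have h1 := tor_mult D (htg (hyt p))
    have h2 := tor_mult D (htg hYt)
    have h3 := tor_mult D (htg hone)
    rw [hytr] at h1
    rw [hYtr] at h2
    rw [Matrix.trace_one] at h3
    set F := E.map Complex.ofReal
    have h4 : (y p - (1 / (a * κ)) • (Y - 1)).transpose * F + F * (y p - (1 / (a * κ)) • (Y - 1)) =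
        ((y p).transpose * F + F * y p) - (1 / (a * κ)) • ((Y.transpose * F + F * Y) -
          ((1 : Matrix ι ι ℂ).transpose * F + F * 1)) := by
      simp only [Matrix.transpose_sub, Matrix.transpose_smul, Matrix.sub_mul, Matrix.mul_sub,
        Matrix.smul_mul, Matrix.mul_smul, smul_sub, smul_add]
      abel
    have e1 : 2 * ((Fintype.card ι : ℂ) / (2 * a)) / Fintype.card ι = 1 / a := by
      field_simp
    have e2 : 2 * ((Fintype.card ι : ℂ) ^ 2 / (4 * a)) / Fintype.card ι = κ + 2 := by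
      rw [hκ]
      field_simp
      ring
    have e3 : 2 * (Fintype.card ι : ℂ) / Fintype.card ι = 2 := by
      field_simp
    rw [e1] at h1
    rw [e2] at h2
    rw [e3] at h3
    rw [h4, h1, h2, h3, ← sub_smul, smul_smul, ← sub_smul]
    convert zero_smul ℂ F using 2
    field_simp
    ring

end Pool.Agent.PrimeSig
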