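import Pool.Agent.PrimeSig.Defs
import Pool.Agent.CoprimeSig.Weights

/-!
# Weight decomposition of all eigenspaces; typed symmetries permute the weight spaces (package U2)
-/

set_option autoImplicit false
set_option linter.unusedSectionVars false

namespace Pool.Agent.PrimeSig

open Module Pool.Agent.CoprimeSig

variable {ι : Type} [Fintype ι] [DecidableEq ι] {K : Type} [Field K] [NumberField K]
  {R : K →+* Matrix ι ι ℚ}

section

variable {t : Submodule ℂ (End ℂ (ι → ℂ))} {c : ℂ}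

omit [DecidableEq ι] in
private theorem decomp_finrank_iSup {κ : Type*} [Fintype κ] {p : κ → Submodule ℂ (ι → ℂ)}
    (h : iSupIndep p) : finrank ℂ (⨆ i, p i : Submodule ℂ (ι → ℂ)) = ∑ i, finrank ℂ (p i) := by
  classical
  rw [Submodule.iSup_eq_range_dfinsupp_lsum]
  have h1 : Function.Injective
      (DFinsupp.lsum ℕ (fun i => (p i).subtype) : (Π₀ i, p i) →ₗ[ℂ] (ι → ℂ)) :=
    h.dfinsupp_lsum_injective
  rw [LinearMap.finrank_range_of_inj h1]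
  exact finrank_directSum ℂ (fun i => p i)

omit [NumberField K] in
private theorem decomp_finite_Om (T : Tor t) (σ : K →+* ℂ) : (Om t (HS R σ) ⊥ c).Finite :=
  (symAct_finite_EE T c).finite_subsets.subset (fun _ hA => hA.1)

/-- U2 (file Decomp.lean). -/
theorem finite_Pt (T : Tor t) : Finite (Pt t R c) := by
  have h : ∀ σ : K →+* ℂ, Finite (Om t (HS R σ) ⊥ c) := fun σ => decomp_finite_Om T σ
  exact inferInstance

/-- U2 -/
theorem Wp_indep (T : Tor t) (hR : ∀ x ∈ t, ∀ σ, ∀ w ∈ HS R σ, x w ∈ HS R σ) :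
    iSupIndep (fun p : Pt t R c => Wp p) := by
  classical
  rintro ⟨σ, A⟩
  obtain ⟨_, h2, h3⟩ := weights (W' := HS R σ) (W'' := ⊥) T (fun x hx w hw => hR x hx σ w hw) c
  have h4 := h3 A
  have h5 : Disjoint (HS R σ) (⨆ (σ') (_ : σ' ≠ σ), HS R σ') := iSupIndep_HS R σ
  have hle : ∀ B : Om t (HS R σ) ⊥ c, Wt t (HS R σ) ⊥ c (B : Set (End ℂ (ι → ℂ))) ≤ HS R σ :=
    fun B w hw => hw.1
  have h6 : Disjoint (Wt t (HS R σ) ⊥ c (A : Set (End ℂ (ι → ℂ))) ⊔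
      ⨆ (B : Om t (HS R σ) ⊥ c) (_ : B ≠ A), Wt t (HS R σ) ⊥ c (B : Set (End ℂ (ι → ℂ))))
      (⨆ (σ') (_ : σ' ≠ σ), HS R σ') :=
    h5.mono_left (sup_le (hle A) (iSup₂_le fun B _ => hle B))
  have h7 := Disjoint.disjoint_sup_right_of_disjoint_sup_left h4 h6
  refine h7.mono_right (iSup₂_le ?_)
  rintro ⟨σ', B⟩ hB
  by_cases hσ : σ' = σ
  · subst hσ
    have hBA : B ≠ A := fun h => hB (by rw [h])
    exact le_sup_of_le_left (le_iSup₂_of_le B hBA le_rfl)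
  · refine le_sup_of_le_right (le_iSup₂_of_le σ' hσ ?_)
    exact fun w hw => hw.1

/-- U2 -/
theorem iSup_Wp (T : Tor t) (hR : ∀ x ∈ t, ∀ σ, ∀ w ∈ HS R σ, x w ∈ HS R σ)
    (S : Set (K →+* ℂ)) : (⨆ (p : Pt t R c) (_ : p.1 ∈ S), Wp p) = VS R S := by
  refine le_antisymm (iSup₂_le fun p hp => ?_) (iSup₂_le fun σ hσ => ?_)
  · exact le_iSup₂_of_le p.1 hp (fun w hw => hw.1)
  · obtain ⟨_, h2, _⟩ := weights (W' := HS R σ) (W'' := ⊥) T (fun x hx w hw => hR x hx σ w hw) c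
    conv_lhs => rw [← h2]
    refine iSup₂_le fun A hA => ?_
    exact le_iSup₂_of_le (f := fun (p : Pt t R c) (_ : p.1 ∈ S) => Wp p) ⟨σ, ⟨A, hA⟩⟩ hσ le_rfl

/-- U2 -/
theorem finrank_VS (T : Tor t) (hR : ∀ x ∈ t, ∀ σ, ∀ w ∈ HS R σ, x w ∈ HS R σ)
    (S : Set (K →+* ℂ)) [Fintype {p : Pt t R c // p.1 ∈ S}] :
    finrank ℂ (VS R S) = ∑ p : {p : Pt t R c // p.1 ∈ S}, finrank ℂ (Wp p.1) := by
  rw [← iSup_Wp (c := c) T hR S, ← iSup_subtype (p := fun p : Pt t R c => p.1 ∈ S)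
    (f := fun p => Wp p.1)]
  exact decomp_finrank_iSup ((Wp_indep T hR).comp Subtype.val_injective)

omit [NumberField K] in
private theorem decomp_mono {s : Submodule ℂ (ι → ℂ) → Submodule ℂ (ι → ℂ)} {τ : ℂ →+* ℂ}
    (h : TSym t R s τ) {U V : Submodule ℂ (ι → ℂ)} (hUV : U ≤ V) : s U ≤ s V := by
  have h1 := h.sup {U, V}
  have h2 : sSup ({U, V} : Set (Submodule ℂ (ι → ℂ))) = V := by
    rw [sSup_pair]; exact sup_eq_right.mpr hUV
  rw [h2] at h1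
  rw [h1]
  exact le_sSup ⟨U, Set.mem_insert _ _, rfl⟩

/-- U2 (file Decomp.lean): a typed symmetry permutes the weight spaces. -/
theorem tsym_act (T : Tor t) (hR : ∀ x ∈ t, ∀ σ, ∀ w ∈ HS R σ, x w ∈ HS R σ)
    {s : Submodule ℂ (ι → ℂ) → Submodule ℂ (ι → ℂ)} {τ : ℂ →+* ℂ} (h : TSym t R s τ) :
    ∃ π : Pt t R c → Pt t R c, Function.Injective π ∧ (∀ p, s (Wp p) = Wp (π p)) ∧
      ∀ p, (π p).1 = τ.comp p.1 := by
  classical
  have hEE : (EE t (⊥ : Submodule ℂ (ι → ℂ)) c).Finite := symAct_finite_EE T c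
  obtain ⟨φ, hinj, hφ⟩ := h.idem
  have hinjE : Set.InjOn φ (EE t (⊥ : Submodule ℂ (ι → ℂ)) c) :=
    hinj.mono (fun (y : End ℂ (ι → ℂ)) (hy : y ∈ EE t ⊥ c) => And.intro hy.1 hy.2.1)
  have hmaps : Set.MapsTo φ (EE t (⊥ : Submodule ℂ (ι → ℂ)) c) (EE t ⊥ c) := by
    intro y hy
    obtain ⟨h1, h2, h3, _, h5⟩ := hφ y hy.1 hy.2.1
    refine ⟨h1, h2, ?_, by rw [h3]; exact hy.2.2.2⟩
    intro w hw
    rw [(Submodule.mem_bot ℂ).1 hw, map_zero]
  have hbij : Set.BijOn φ (EE t (⊥ : Submodule ℂ (ι → ℂ)) c) (EE t ⊥ c) := by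
    refine ⟨hmaps, hinjE, ?_⟩
    have h1 : φ '' (EE t (⊥ : Submodule ℂ (ι → ℂ)) c) ⊆ EE t ⊥ c := hmaps.image_subset
    have h2 : (φ '' (EE t (⊥ : Submodule ℂ (ι → ℂ)) c)).ncard =
      (EE t (⊥ : Submodule ℂ (ι → ℂ)) c).ncard := hinjE.ncard_image
    have h3 : φ '' (EE t (⊥ : Submodule ℂ (ι → ℂ)) c) = EE t ⊥ c :=
      Set.eq_of_subset_of_ncard_le h1 h2.ge hEE
    rw [Set.SurjOn, h3]
  -- image of a weight space
  have hle : ∀ (σ : K →+* ℂ), ∀ A ⊆ EE t (⊥ : Submodule ℂ (ι → ℂ)) c,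
      s (Wt t (HS R σ) ⊥ c A) ≤ Wt t (HS R (τ.comp σ)) ⊥ c (φ '' A) := by
    intro σ A hA u hu
    refine ⟨?_, ?_⟩
    · have h1 : Wt t (HS R σ) ⊥ c A ≤ HS R σ := fun w hw => hw.1
      exact h.typed σ (decomp_mono h h1 hu)
    · intro z hz
      obtain ⟨y, hy, rfl⟩ := hbij.surjOn hz
      obtain ⟨_, _, _, h4, h5⟩ := hφ y hy.1 hy.2.1
      constructor
      · rintro ⟨y', hy', hyy'⟩
        have h6 : y' = y := hinjE (hA hy') hy hyy'
        subst h6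
        exact h4 _ (fun w hw => (hw.2 y' hy).1 hy') u hu
      · intro h'
        have h6 : y ∉ A := fun h'' => h' ⟨y, h'', rfl⟩
        exact h5 _ (fun w hw => (hw.2 y hy).2 h6) u hu
  have hmemOm : ∀ (σ : K →+* ℂ) (A : Om t (HS R σ) ⊥ c),
      φ '' (A : Set (End ℂ (ι → ℂ))) ∈ Om t (HS R (τ.comp σ)) ⊥ c := by
    intro σ A
    refine ⟨(Set.image_mono A.2.1).trans hmaps.image_subset, ?_⟩
    intro hbot
    have h1 := hle σ A A.2.1
    rw [hbot, le_bot_iff] at h1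
    have h2 := h.rank (Wt t (HS R σ) ⊥ c A)
    rw [h1, finrank_bot] at h2
    exact A.2.2 (Submodule.finrank_eq_zero.mp h2.symm)
  let π : Pt t R c → Pt t R c := fun p => ⟨τ.comp p.1, ⟨φ '' (p.2 : Set _), hmemOm p.1 p.2⟩⟩
  have hπinj : Function.Injective π := by
    rintro ⟨σ, A⟩ ⟨σ', B⟩ hAB
    have h0 : τ.comp σ = τ.comp σ' := congrArg Sigma.fst hAB
    have h00 : σ = σ' := by
      ext r
      exact τ.injective (congrArg (fun f : K →+* ℂ => f r) h0)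
    subst h00
    have h1 : (π ⟨σ, A⟩).2 = (π ⟨σ, B⟩).2 := by
      have := (Sigma.mk.inj_iff.1 hAB).2
      exact eq_of_heq this
    have h2 : φ '' (A : Set (End ℂ (ι → ℂ))) = φ '' (B : Set (End ℂ (ι → ℂ))) :=
      congrArg Subtype.val h1
    have h3 : A = B := Subtype.ext ((hinjE.image_eq_image_iff A.2.1 B.2.1).mp h2)
    rw [h3]
  have : Finite (Pt t R c) := finite_Pt T
  have : Fintype (Pt t R c) := Fintype.ofFinite _
  let e : Equiv.Perm (Pt t R c) := Equiv.ofBijective π (Finite.injective_iff_bijective.mp hπinj)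
  refine ⟨π, hπinj, ?_, fun _ => rfl⟩
  have hle' : ∀ p : Pt t R c, s (Wp p) ≤ Wp (π p) := fun p => hle p.1 p.2 p.2.2.1
  have h1 : ∀ p : Pt t R c, finrank ℂ (Wp p) ≤ finrank ℂ (Wp (e p)) := by
    intro p
    have h2 := Submodule.finrank_mono (hle' p)
    rw [h.rank] at h2
    exact h2
  have h2 : ∑ p : Pt t R c, finrank ℂ (Wp p) = ∑ p : Pt t R c, finrank ℂ (Wp (e p)) :=
    (Equiv.sum_comp e (fun p : Pt t R c => finrank ℂ (Wp p))).symm
  have h3 := (Finset.sum_eq_sum_iff_of_le (fun p _ => h1 p)).mp h2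
  intro p
  refine Submodule.eq_of_le_of_finrank_eq (hle' p) ?_
  rw [h.rank]
  exact h3 p (Finset.mem_univ p)

end

end Pool.Agent.PrimeSig
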