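import Pool.Agent.CoprimeSig.HSum
import Pool.Agent.CoprimeSig.SymAct
import Pool.Agent.CoprimeSig.Cj

/-!
# Signatures prime to a prime number, for all CM fields: definitions

A number field `K` acts on a rational vector space by matrices `R`. The eigenspaces `HS R σ`,
`σ : K → ℂ`, are decomposed into weight spaces of a torus `t`; the symmetries of the lattice of
subspaces which are compatible with `t` and induce a field endomorphism on the embeddings of `K`
permute these weight spaces.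
-/

set_option autoImplicit false

namespace Pool.Agent.PrimeSig

open Module Pool.Agent.CoprimeSig

variable {ι : Type} [Fintype ι] [DecidableEq ι] {K : Type} [Field K]

/-- The sum of the eigenspaces for the embeddings in `S`. -/
noncomputable def VS (R : K →+* Matrix ι ι ℚ) (S : Set (K →+* ℂ)) : Submodule ℂ (ι → ℂ) :=
  ⨆ σ ∈ S, HS R σ

/-- A symmetry of the lattice of subspaces, compatible with the idempotents of `t`, which induces
the field endomorphism `τ` on the eigenspaces of `K`. -/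
structure TSym (t : Submodule ℂ (End ℂ (ι → ℂ))) (R : K →+* Matrix ι ι ℚ)
    (s : Submodule ℂ (ι → ℂ) → Submodule ℂ (ι → ℂ)) (τ : ℂ →+* ℂ) : Prop where
  sup : ∀ S : Set (Submodule ℂ (ι → ℂ)), s (sSup S) = sSup (s '' S)
  rank : ∀ U, finrank ℂ (s U) = finrank ℂ U
  typed : ∀ σ : K →+* ℂ, s (HS R σ) ≤ HS R (τ.comp σ)
  idem : ∃ φ : End ℂ (ι → ℂ) → End ℂ (ι → ℂ),
    Set.InjOn φ {y | y ∈ t ∧ y * y = y} ∧ ∀ y ∈ t, y * y = y →
    φ y ∈ t ∧ φ y * φ y = φ y ∧ LinearMap.trace ℂ (ι → ℂ) (φ y) = LinearMap.trace ℂ (ι → ℂ) y ∧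
    (∀ U : Submodule ℂ (ι → ℂ), (∀ u ∈ U, y u = u) → ∀ u ∈ s U, φ y u = u) ∧
    (∀ U : Submodule ℂ (ι → ℂ), (∀ u ∈ U, y u = 0) → ∀ u ∈ s U, φ y u = 0)

/-- The weights of `t` on the eigenspaces of `K`. -/
abbrev Pt (t : Submodule ℂ (End ℂ (ι → ℂ))) (R : K →+* Matrix ι ι ℚ) (c : ℂ) : Type :=
  Σ σ : K →+* ℂ, Om t (HS R σ) ⊥ c

/-- The weight space. -/
noncomputable def Wp {t : Submodule ℂ (End ℂ (ι → ℂ))} {R : K →+* Matrix ι ι ℚ} {c : ℂ} (p : Pt t R c) :
    Submodule ℂ (ι → ℂ) :=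
  Wt t (HS R p.1) ⊥ c (p.2 : Set (End ℂ (ι → ℂ)))

end Pool.Agent.PrimeSig
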