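import Pool.Agent.CoprimeSig.Ext
import Pool.Agent.GHC.FieldExt
import Mathlib.FieldTheory.PrimitiveElement

/-!
# Counting the embeddings induced by endomorphisms of the complex numbers
-/

set_option autoImplicit false

namespace Pool.Agent.PrimeSig

open Module Pool.Agent.CoprimeSig

variable {K : Type} [Field K] [NumberField K]

theorem Emb_finite_range (σ₀ : K →+* ℂ) : FiniteDimensional ℚ σ₀.fieldRange := by
  let f : K →ₐ[ℚ] σ₀.fieldRange := RingHom.toRatAlgHom σ₀.rangeRestrictField
  have hf : Function.Surjective f.toLinearMap := σ₀.rangeRestrictField_bijective.2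
  exact Module.Finite.of_surjective f.toLinearMap hf

/-- U3 (file Emb.lean): the number of embeddings of `M` which are induced by endomorphisms of `ℂ`
fixing `σ₀`. -/
theorem card_fixing (σ₀ : K →+* ℂ) (M : Subfield ℂ)
    (hfin : finrank σ₀.fieldRange (IntermediateField.adjoin σ₀.fieldRange (M : Set ℂ)) ≠ 0) :
    NumberField M ∧
      Nat.card {x : M →+* ℂ // ∃ τ : ℂ →+* ℂ, τ.comp σ₀ = σ₀ ∧ τ.comp M.subtype = x} =
        finrank σ₀.fieldRange (IntermediateField.adjoin σ₀.fieldRange (M : Set ℂ)) := by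
  classical
  have hk : FiniteDimensional ℚ σ₀.fieldRange := Emb_finite_range σ₀
  set L := IntermediateField.adjoin σ₀.fieldRange (M : Set ℂ) with hLdef
  have hL0 : FiniteDimensional σ₀.fieldRange L :=
    Module.finite_of_finrank_pos (Nat.pos_of_ne_zero hfin)
  have hL : FiniteDimensional ℚ L := Module.Finite.trans σ₀.fieldRange L
  have hML : ∀ x : M, (x : ℂ) ∈ L := fun x => IntermediateField.subset_adjoin _ _ x.2
  let inc : M →+* L :=
    { toFun := fun x => ⟨x, hML x⟩
      map_one' := rfl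
      map_mul' := fun _ _ => rfl
      map_zero' := rfl
      map_add' := fun _ _ => rfl }
  have hinc : Function.Injective inc := inc.injective
  have hM : FiniteDimensional ℚ M := by
    let f : M →ₐ[ℚ] L := RingHom.toRatAlgHom inc
    have hf : Function.Injective f.toLinearMap := hinc
    exact Module.Finite.of_injective f.toLinearMap hf
  refine ⟨{ to_charZero := inferInstance, to_finiteDimensional := hM }, ?_⟩
  have hcard : Nat.card (L →ₐ[σ₀.fieldRange] ℂ) = finrank σ₀.fieldRange L := by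
    rw [Nat.card_eq_fintype_card]
    exact AlgHom.card σ₀.fieldRange L ℂ
  rw [← hcard]
  have halg : Algebra.IsAlgebraic ℚ L := inferInstance
  have hex : ∀ f : L →ₐ[σ₀.fieldRange] ℂ, ∃ τ : ℂ →+* ℂ, τ.comp σ₀ = σ₀ ∧
      τ.comp M.subtype = f.toRingHom.comp inc := by
    intro f
    obtain ⟨σ, hσ⟩ := Pool.Agent.GHC.exists_extension (K := L) f.toRingHom
    refine ⟨σ, ?_, ?_⟩
    · ext x
      have h1 := hσ (algebraMap σ₀.fieldRange L ⟨σ₀ x, ⟨x, rfl⟩⟩)
      have h2 : f.toRingHom (algebraMap σ₀.fieldRange L ⟨σ₀ x, ⟨x, rfl⟩⟩) = σ₀ x :=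
        f.commutes _
      rw [h2] at h1
      exact h1
    · ext x
      exact hσ (inc x)
  symm
  apply Nat.card_eq_of_bijective
    (fun f : L →ₐ[σ₀.fieldRange] ℂ => (⟨f.toRingHom.comp inc, hex f⟩ :
      {x : M →+* ℂ // ∃ τ : ℂ →+* ℂ, τ.comp σ₀ = σ₀ ∧ τ.comp M.subtype = x}))
  constructor
  · intro f g hfg
    have h1 : f.toRingHom.comp inc = g.toRingHom.comp inc := congrArg Subtype.val hfg
    apply IntermediateField.algHom_ext_of_eq_adjoin σ₀.fieldRange hLdef
    intro x hx
    exact RingHom.congr_fun h1 ⟨x, hx⟩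
  · rintro ⟨x, τ, hτ, rfl⟩
    refine ⟨{ toRingHom := τ.comp (algebraMap L ℂ), commutes' := ?_ }, ?_⟩
    · rintro ⟨_, y, rfl⟩
      exact RingHom.congr_fun hτ y
    · apply Subtype.ext
      ext y
      rfl

end Pool.Agent.PrimeSig
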