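import Pool.Agent.CoprimeSig.Pol

/-!
# A Riemann form for which a CM field is stable under the Rosati involution

The `ℚ`-bilinear form `(x, y) ↦ Tr (x * c y)` on the CM field `K` is symmetric and positive
definite. For an orthogonal basis `e i` with `t i = Tr (e i * c (e i))` the form
`N * ∑ i, (t i)⁻¹ * E (ρ (e i) u) (ρ (e i) v)` is a Riemann form and the adjoint of `ρ r` for it
is `ρ (c r)`.
-/

set_option autoImplicit false
set_option maxSynthPendingDepth 3

universe u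

namespace Pool.Agent.PrimeSig

open Module Pool.Agent.CoprimeSig Pool.Agent.GHC Pool.Agent.GHCFull Pool.Agent.OddRank

section Field

variable {K : Type} [Field K] [NumberField K]

theorem pol_cc (c : K →+* K) (hc : ∀ (σ : K →+* ℂ) (r : K), σ (c r) = starRingEnd ℂ (σ r))
    (r : K) : c (c r) = r := by
  obtain ⟨σ⟩ : Nonempty (K →+* ℂ) := inferInstance
  apply σ.injective
  rw [hc, hc, Complex.conj_conj]

theorem pol_trace (x : K) : ((Algebra.trace ℚ K x : ℚ) : ℂ) = ∑ σ : K →ₐ[ℚ] ℂ, σ x := by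
  have h := trace_eq_sum_embeddings ℂ (K := ℚ) (L := K) (x := x)
  rw [← h]
  rfl

theorem pol_trace_c (c : K →+* K)
    (hc : ∀ (σ : K →+* ℂ) (r : K), σ (c r) = starRingEnd ℂ (σ r)) (x : K) :
    Algebra.trace ℚ K (c x) = Algebra.trace ℚ K x := by
  have h : ((Algebra.trace ℚ K (c x) : ℚ) : ℂ) = ((Algebra.trace ℚ K x : ℚ) : ℂ) := by
    rw [pol_trace]
    have h1 : ∀ σ : K →ₐ[ℚ] ℂ, σ (c x) = starRingEnd ℂ (σ x) := fun σ => hc (σ : K →+* ℂ) x
    rw [Finset.sum_congr rfl fun σ _ => h1 σ, ← map_sum, ← pol_trace]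
    exact Complex.conj_ofReal _
  exact_mod_cast h

/-- The hermitian trace form. -/
noncomputable def polForm (c : K →+* K) : LinearMap.BilinForm ℚ K :=
  LinearMap.mk₂ ℚ (fun x y => Algebra.trace ℚ K (x * c y))
    (fun x y z => by rw [add_mul, map_add])
    (fun a x y => by rw [smul_mul_assoc, map_smul])
    (fun x y z => by rw [map_add, mul_add, map_add])
    (fun a x y => by
      have h : c (a • y) = a • c y := map_ratCast_smul c ℚ ℚ a y
      rw [h, mul_smul_comm, map_smul])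

theorem polForm_apply (c : K →+* K) (x y : K) :
    polForm c x y = Algebra.trace ℚ K (x * c y) := rfl

theorem polForm_pos (c : K →+* K)
    (hc : ∀ (σ : K →+* ℂ) (r : K), σ (c r) = starRingEnd ℂ (σ r)) {x : K} (hx : x ≠ 0) :
    0 < polForm c x x := by
  have h : ((polForm c x x : ℚ) : ℂ) = ((∑ σ : K →ₐ[ℚ] ℂ, ‖σ x‖ ^ 2 : ℝ) : ℂ) := by
    rw [polForm_apply, pol_trace, Complex.ofReal_sum]
    refine Finset.sum_congr rfl fun σ _ => ?_
    have h1 : σ (c x) = starRingEnd ℂ (σ x) := hc (σ : K →+* ℂ) x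
    rw [map_mul, h1, Complex.mul_conj, Complex.normSq_eq_norm_sq]
  have h2 : ((polForm c x x : ℚ) : ℝ) = ∑ σ : K →ₐ[ℚ] ℂ, ‖σ x‖ ^ 2 := by
    exact_mod_cast h
  have h3 : (0 : ℝ) < ∑ σ : K →ₐ[ℚ] ℂ, ‖σ x‖ ^ 2 := by
    obtain ⟨σ₀⟩ : Nonempty (K →+* ℂ) := inferInstance
    refine Finset.sum_pos (fun σ _ => ?_) ⟨σ₀.toRatAlgHom, Finset.mem_univ _⟩
    have h4 : σ x ≠ 0 := fun h0 => hx (σ.toRingHom.injective (by
      rw [map_zero]; exact h0))
    positivity
  rw [← h2] at h3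
  exact_mod_cast h3

theorem polForm_symm (c : K →+* K)
    (hc : ∀ (σ : K →+* ℂ) (r : K), σ (c r) = starRingEnd ℂ (σ r)) (x y : K) :
    polForm c x y = polForm c y x := by
  have h : c (y * c x) = x * c y := by rw [map_mul, pol_cc c hc, mul_comm]
  rw [polForm_apply, polForm_apply, ← pol_trace_c c hc (y * c x), h]

theorem polForm_mul (c : K →+* K)
    (hc : ∀ (σ : K →+* ℂ) (r : K), σ (c r) = starRingEnd ℂ (σ r)) (r x y : K) :
    polForm c (r * x) y = polForm c (c r * y) x := by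
  have h : c (c r * y * c x) = r * x * c y := by
    rw [map_mul, map_mul, pol_cc c hc, pol_cc c hc]; ring
  rw [polForm_apply, polForm_apply, ← pol_trace_c c hc (c r * y * c x), h]

/-- An orthogonal basis and the coordinates of the products. -/
theorem exists_orth (c : K →+* K)
    (hc : ∀ (σ : K →+* ℂ) (r : K), σ (c r) = starRingEnd ℂ (σ r)) :
    ∃ (n : ℕ) (e : Fin n → K) (t : Fin n → ℚ), (∀ i, 0 < t i) ∧ (∀ i, e i ≠ 0) ∧ 0 < n ∧
      ∀ x : K, x = ∑ i, (t i * polForm c x (e i)) • e i := by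
  classical
  have h2 : Invertible (2 : ℚ) := invertibleOfNonzero (by norm_num)
  have hs : LinearMap.IsSymm (polForm c) := ⟨fun x y => by
    simpa using polForm_symm c hc x y⟩
  obtain ⟨v, hv⟩ := LinearMap.BilinForm.exists_orthogonal_basis hs
  have hne : ∀ i, v i ≠ 0 := fun i => v.ne_zero i
  have hpos : ∀ i, 0 < polForm c (v i) (v i) := fun i => polForm_pos c hc (hne i)
  refine ⟨finrank ℚ K, v, fun i => (polForm c (v i) (v i))⁻¹, fun i => inv_pos.2 (hpos i), hne,
    finrank_pos, fun x => ?_⟩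
  conv_lhs => rw [← v.sum_repr x]
  refine Finset.sum_congr rfl fun i _ => ?_
  congr 1
  have h3 : polForm c x (v i) = v.repr x i * polForm c (v i) (v i) := by
    conv_lhs => rw [← v.sum_repr x]
    rw [map_sum, LinearMap.sum_apply, Finset.sum_eq_single i]
    · rw [map_smul, LinearMap.smul_apply, smul_eq_mul]
    · intro j _ hj
      rw [map_smul, LinearMap.smul_apply]
      have h4 : polForm c (v j) (v i) = 0 := hv hj
      rw [h4, smul_zero]
    · intro h; exact absurd (Finset.mem_univ i) h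
  rw [h3]
  field_simp [(hpos i).ne']

end Field

section

variable {V : Type u} [NormedAddCommGroup V] [NormedSpace ℂ V] [FiniteDimensional ℂ V]
  {Λ : Submodule ℤ V} [DiscreteTopology Λ] [IsZLattice ℝ Λ]

/-- U5. A polarisation for which the adjoint of `ρ r` is `ρ (c r)`. -/
theorem exists_hermitian_form {E : V →L[ℝ] V →L[ℝ] ℝ} {K : Type} [Field K] [NumberField K]
    (c : K →+* K) (hc : ∀ (σ : K →+* ℂ) (r : K), σ (c r) = starRingEnd ℂ (σ r))
    (ρ : K →+* (V →L[ℂ] V))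
    (hρ : ∀ r : K, ∀ l ∈ Λ, ∃ n : ℕ, n ≠ 0 ∧ n • ρ r l ∈ Λ) (hE : IsRiemannForm Λ E) :
    ∃ E' : V →L[ℝ] V →L[ℝ] ℝ, IsRiemannForm Λ E' ∧
      ∀ r u v, E' (ρ r u) v = E' u (ρ (c r) v) := by
  classical
  obtain ⟨n, e, t, ht, he, hn, hsum⟩ := exists_orth c hc
  choose m hm0 hm using fun i => pol_common ρ hρ (e i)
  have hinj : ∀ i, ∀ v : V, v ≠ 0 → ρ (e i) v ≠ 0 := by
    intro i v hv h
    apply hv
    have h1 : ρ ((e i)⁻¹ * e i) v = v := by
      rw [inv_mul_cancel₀ (he i), map_one]; rfl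
    rw [map_mul] at h1
    have h2 : (ρ (e i)⁻¹ * ρ (e i)) v = ρ (e i)⁻¹ (ρ (e i) v) := rfl
    rw [h2, h, map_zero] at h1
    exact h1.symm
  let q : Fin n → ℚ := fun i => t i / (m i : ℚ) ^ 2
  let N : ℕ := ∏ i, (q i).den
  have hN : 0 < (N : ℝ) := by
    have h1 : 0 < N := Finset.prod_pos fun i _ => (q i).den_pos
    exact_mod_cast h1
  have hNq : ∀ i, ∃ k : ℤ, (N : ℝ) * (t i : ℝ) = k * (m i : ℝ) ^ 2 := by
    intro i
    refine ⟨((∏ j ∈ Finset.univ.erase i, (q j).den : ℕ) : ℤ) * (q i).num, ?_⟩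
    have h1 : (q i) * (q i).den = (q i).num := Rat.mul_den_eq_num _
    have h2 : t i = q i * (m i : ℚ) ^ 2 := by
      have h3 : (m i : ℚ) ≠ 0 := by exact_mod_cast hm0 i
      simp only [q]
      field_simp
    have h4 : (N : ℚ) = (∏ j ∈ Finset.univ.erase i, (q j).den : ℕ) * ((q i).den : ℚ) := by
      have h5 : N = (∏ j ∈ Finset.univ.erase i, (q j).den) * (q i).den :=
        (Finset.prod_erase_mul _ _ (Finset.mem_univ i)).symm
      rw [h5]; push_cast; ring
    have h6 : (N : ℚ) * t i =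
        (((∏ j ∈ Finset.univ.erase i, (q j).den : ℕ) : ℤ) * (q i).num : ℤ) * (m i : ℚ) ^ 2 := by
      rw [h4, h2]
      push_cast
      rw [← h1]
      ring
    exact_mod_cast h6
  let A : Fin n → (V →L[ℝ] V) := fun i => (ρ (e i)).restrictScalars ℝ
  let E' : V →L[ℝ] V →L[ℝ] ℝ := ∑ i, ((N : ℝ) * (t i : ℝ)) • E.bilinearComp (A i) (A i)
  have hE' : ∀ u v, E' u v = ∑ i, ((N : ℝ) * (t i : ℝ)) * E (ρ (e i) u) (ρ (e i) v) := by
    intro u v
    simp only [E', sum_apply, smul_apply, ContinuousLinearMap.bilinearComp_apply, smul_eq_mul]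
    rfl
  have hcoef : ∀ i, 0 < (N : ℝ) * (t i : ℝ) := fun i => mul_pos hN (by exact_mod_cast ht i)
  have hexp : ∀ (x : K) (v : V), ρ x v = ∑ i, ((t i * polForm c x (e i) : ℚ) : ℝ) • ρ (e i) v := by
    intro x v
    conv_lhs => rw [hsum x]
    rw [map_sum, sum_apply]
    refine Finset.sum_congr rfl fun i _ => ?_
    rw [Algebra.smul_def, map_mul]
    change ρ (algebraMap ℚ K _) (ρ (e i) v) = _
    rw [pol_rat]
  refine ⟨E', ⟨?_, ?_, ?_, ?_⟩, ?_⟩
  · intro v
    rw [hE']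
    refine Finset.sum_eq_zero fun i _ => ?_
    rw [hE.alt, mul_zero]
  · intro u hu v hv
    choose k hk using hNq
    choose a ha using fun i => hE.integral _ (hm i u hu) _ (hm i v hv)
    refine ⟨∑ i, k i * a i, ?_⟩
    rw [hE']
    push_cast
    refine Finset.sum_congr rfl fun i _ => ?_
    rw [hk i, ← ha i]
    have h3 : E (m i • ρ (e i) u) (m i • ρ (e i) v) =
        (m i : ℝ) ^ 2 * E (ρ (e i) u) (ρ (e i) v) := by
      rw [map_nsmul, map_nsmul, smul_apply, smul_smul, nsmul_eq_mul]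
      push_cast
      ring
    rw [h3]
    ring
  · intro u v
    rw [hE', hE']
    refine Finset.sum_congr rfl fun i _ => ?_
    rw [(ρ (e i)).map_smul, (ρ (e i)).map_smul, hE.compat]
  · intro v hv
    rw [hE']
    refine Finset.sum_pos (fun i _ => ?_) ⟨⟨0, hn⟩, Finset.mem_univ _⟩
    rw [(ρ (e i)).map_smul]
    exact mul_pos (hcoef i) (hE.pos _ (hinj i v hv))
  · intro r u v
    rw [hE', hE']
    have hL : ∀ i, ρ (e i) (ρ r u) =
        ∑ j, ((t j * polForm c (r * e i) (e j) : ℚ) : ℝ) • ρ (e j) u := by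
      intro i
      rw [← hexp, mul_comm r (e i), map_mul]
      rfl
    have hR : ∀ j, ρ (e j) (ρ (c r) v) =
        ∑ i, ((t i * polForm c (c r * e j) (e i) : ℚ) : ℝ) • ρ (e i) v := by
      intro j
      rw [← hexp, mul_comm (c r) (e j), map_mul]
      rfl
    have h1 : ∀ i, ((N : ℝ) * (t i : ℝ)) * E (ρ (e i) (ρ r u)) (ρ (e i) v) =
        ∑ j, (N : ℝ) * (t i : ℝ) * (t j : ℝ) * (polForm c (r * e i) (e j) : ℝ) *
          E (ρ (e j) u) (ρ (e i) v) := by
      intro i
      rw [hL, map_sum, sum_apply, Finset.mul_sum]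
      refine Finset.sum_congr rfl fun j _ => ?_
      rw [map_smul, smul_apply, smul_eq_mul]
      push_cast
      ring
    have h2 : ∀ j, ((N : ℝ) * (t j : ℝ)) * E (ρ (e j) u) (ρ (e j) (ρ (c r) v)) =
        ∑ i, (N : ℝ) * (t i : ℝ) * (t j : ℝ) * (polForm c (r * e i) (e j) : ℝ) *
          E (ρ (e j) u) (ρ (e i) v) := by
      intro j
      rw [hR, map_sum, Finset.mul_sum]
      refine Finset.sum_congr rfl fun i _ => ?_
      rw [map_smul, smul_eq_mul, ← polForm_mul c hc r (e i) (e j)]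
      push_cast
      ring
    rw [Finset.sum_congr rfl fun i _ => h1 i, Finset.sum_congr rfl fun i _ => h2 i,
      Finset.sum_comm]

end

end Pool.Agent.PrimeSig
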