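import Pool.Agent.PrimeSig.Lef
import Pool.Agent.PrimeSig.Pol
import Pool.Agent.CoprimeSig.Final

/-!
# The Hodge conjecture for powers of simple abelian varieties of type IV whose signature on a Galois
orbit of embeddings is prime to `l`
-/

set_option autoImplicit false
set_option maxSynthPendingDepth 3

universe u

namespace Pool.Agent.PrimeSig

open Complex Module Pool.Agent.GHC Pool.Agent.GHCFull Pool.Agent.OddRank Pool.Agent.CoprimeSig

section

variable {ι : Type} [Fintype ι] [DecidableEq ι]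

omit [DecidableEq ι] in
private theorem finrank_iSup_ind {κ : Type*} [Finite κ] {p : κ → Submodule ℂ (ι → ℂ)}
    (h : iSupIndep p) : finrank ℂ (⨆ i, p i : Submodule ℂ (ι → ℂ)) = ∑ᶠ i, finrank ℂ (p i) := by
  classical
  have : Fintype κ := Fintype.ofFinite κ
  rw [Submodule.iSup_eq_range_dfinsupp_lsum]
  have h1 : Function.Injective
      (DFinsupp.lsum ℕ (fun i => (p i).subtype) : (Π₀ i, p i) →ₗ[ℂ] (ι → ℂ)) :=
    h.dfinsupp_lsum_injective
  rw [LinearMap.finrank_range_of_inj h1, finsum_eq_sum_of_fintype]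
  exact finrank_directSum ℂ (fun i => p i)

omit [DecidableEq ι] in
private theorem finrank_iSup_mem {κ : Type*} [Finite κ] {p : κ → Submodule ℂ (ι → ℂ)}
    (h : iSupIndep p) (S : Set κ) :
    finrank ℂ (⨆ i ∈ S, p i : Submodule ℂ (ι → ℂ)) = ∑ᶠ i ∈ S, finrank ℂ (p i) := by
  rw [iSup_subtype', ← finsum_set_coe_eq_finsum_mem (f := fun i => finrank ℂ (p i)) S]
  exact finrank_iSup_ind (h.comp Subtype.val_injective)

private theorem finrank_VS_const {K : Type} [Field K] [NumberField K]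
    {R : K →+* Matrix ι ι ℚ} (hind : iSupIndep (HS R)) {σ₀ : K →+* ℂ}
    (h : ∀ σ : K →+* ℂ, finrank ℂ (HS R σ) = finrank ℂ (HS R σ₀)) (S : Set (K →+* ℂ)) :
    finrank ℂ (VS R S) = Nat.card S * finrank ℂ (HS R σ₀) := by
  classical
  have h1 : finrank ℂ (VS R S) = ∑ᶠ σ : S, finrank ℂ (HS R σ.1) := by
    rw [finsum_set_coe_eq_finsum_mem (f := fun σ => finrank ℂ (HS R σ)) S]
    exact finrank_iSup_mem hind S
  rw [h1, finsum_eq_sum_of_fintype]
  have h2 : ∀ σ ∈ (Finset.univ : Finset S), finrank ℂ (HS R σ.1) = finrank ℂ (HS R σ₀) :=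
    fun σ _ => h σ.1
  rw [Finset.sum_congr rfl h2, Finset.sum_const, Finset.card_univ, smul_eq_mul,
    Nat.card_eq_fintype_card]

end

variable {V : Type u} [NormedAddCommGroup V] [NormedSpace ℂ V] [FiniteDimensional ℂ V]
  {Λ : Submodule ℤ V} [DiscreteTopology Λ] [IsZLattice ℝ Λ] {ι : Type} [Fintype ι] [DecidableEq ι]
  (b : Basis ι ℤ Λ) {E : V →L[ℝ] V →L[ℝ] ℝ}

private theorem gram_apply (x y : ι → ℂ) :
    psi b E x y = x ⬝ᵥ ((gram b E).map Complex.ofReal).mulVec y := psi_gram b x y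

private theorem skew_iff (M : Matrix ι ι ℂ) :
    (∀ x y, psi b E (Matrix.toLin' M x) y + psi b E x (Matrix.toLin' M y) = 0) ↔
      M.transpose * (gram b E).map Complex.ofReal + (gram b E).map Complex.ofReal * M = 0 := by
  have hg : (gram b E).map Complex.ofReal = LinearMap.toMatrix₂' ℂ (psi b E) := by
    ext i j
    rw [LinearMap.toMatrix₂'_apply, psi_gram, Matrix.mulVec_single_one, single_dotProduct, one_mul]
    rfl
  rw [hg]
  have h := T3_cond (psi b E) M 0
  rw [zero_smul] at h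
  rw [← h]
  exact forall_congr' fun x => forall_congr' fun y => by rw [zero_mul]

/-- Adjoint endomorphisms have adjoint rational representations. -/
private theorem adj_of_emb {A B : V →L[ℂ] V} {M N : Matrix ι ι ℂ}
    (hM : ∀ v, emb b (A v) = M.mulVec (emb b v)) (hN : ∀ v, emb b (B v) = N.mulVec (emb b v))
    (hA : ∀ u v, E (A u) v = E u (B v)) :
    M.transpose * (gram b E).map Complex.ofReal = (gram b E).map Complex.ofReal * N := by
  have h1 : ∀ i j : ι, psi b E (M.mulVec (Pi.single i 1)) (Pi.single j 1) =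
      psi b E (Pi.single i 1) (N.mulVec (Pi.single j 1)) := by
    intro i j
    rw [← emb_basis b i, ← emb_basis b j, ← hM, ← hN, psi_emb, psi_emb, hA]
  ext i j
  have h2 := h1 i j
  rw [gram_apply, gram_apply, Matrix.mulVec_mulVec, Matrix.mulVec_single_one,
    Matrix.mulVec_single_one, Matrix.mulVec_single_one, single_dotProduct, one_mul] at h2
  rw [Matrix.mul_apply, ← Matrix.transpose_apply (_ * N) j i] at *
  simpa [dotProduct, Matrix.transpose_apply] using h2

/-- **Main theorem.** -/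
theorem hodge_orbit (hsimple : IsSimpleTorus Λ) (hE : IsRiemannForm Λ E)
    {K : Type} [Field K] [NumberField K] [NumberField.IsCMField K] (ρ : K →+* (V →L[ℂ] V))
    (hρ : ∀ r : K, ∀ l ∈ Λ, ∃ n : ℕ, n ≠ 0 ∧ n • ρ r l ∈ Λ)
    (M M' : Subfield ℂ) (hMM : M ≤ M') (σ₀ : K →+* ℂ)
    (hS : ∀ σ, σ ∈ conjOver M σ₀ ↔ (starRingEnd ℂ).comp σ ∉ conjOver M σ₀)
    {l k : ℕ} (hl : l.Prime)
    (hk : 2 * finrank ℂ V * Nat.card (conjOver M' σ₀) = l ^ k * finrank ℚ K)
    (hM : 2 * finrank ℂ V = finrank ℚ K ∨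
      ¬ l ∣ finrank σ₀.fieldRange (IntermediateField.adjoin σ₀.fieldRange (M' : Set ℂ)))
    (h0 : ∀ σ ∈ conjOver M σ₀, σ ∉ conjOver M' σ₀ → eigen ρ σ = ⊥)
    (hla : ¬ l ∣ ∑ᶠ σ ∈ conjOver M' σ₀, finrank ℂ (eigen ρ σ))
    (h2 : 2 * (∑ᶠ σ ∈ conjOver M' σ₀, finrank ℂ (eigen ρ σ)) ≠ finrank ℂ V)
    (n j : ℕ) : GeneralizedHodge (prodL fun _ : Fin n => Λ) j (2 * j) := by
  classical
  let b : Basis (Fin (finrank ℤ Λ)) ℤ Λ := finBasis ℤ Λ
  let c : K →+* K := (NumberField.IsCMField.complexConj K : K →+* K)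
  have hc : ∀ (σ : K →+* ℂ) (r : K), σ (c r) = starRingEnd ℂ (σ r) :=
    fun σ r => NumberField.IsCMField.complexEmbedding_complexConj K σ r
  obtain ⟨E', hE', hadj⟩ := exists_hermitian_form c hc ρ hρ hE
  obtain ⟨R, hR1, hR2, hR3⟩ := exists_action b ρ hρ
  have hcard : Fintype.card (Fin (finrank ℤ Λ)) = 2 * finrank ℂ V := by
    rw [Fintype.card_fin, ZLattice.rank ℝ Λ, ← Complex.finrank_real_complex,
      Module.finrank_mul_finrank]
  have hfK : 0 < finrank ℚ K := finrank_pos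
  obtain ⟨-, hind, hfin⟩ := HS_decomp R
  have hrank : ∀ σ, finrank ℂ (HS R σ) * finrank ℚ K = 2 * finrank ℂ V := by
    intro σ
    rw [← hcard]
    exact hfin σ
  have hhp : hp (jMat b) = hodgeProj b := hp_jMat b
  have hF : ∀ r, (ratM (R r)).transpose * (gram b E').map Complex.ofReal =
      (gram b E').map Complex.ofReal * ratM (R (c r)) := fun r =>
    adj_of_emb b (hR1 r) (hR1 (c r)) (hadj r)
  have hmapHS : ∀ σ, (HS R σ).map (Matrix.toLin' (hp (jMat b))) ≤ HS R σ := by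
    rintro σ _ ⟨w, hw, rfl⟩ r
    have h3 : hp (jMat b) * ratM (R r) = ratM (R r) * hp (jMat b) :=
      hR2 r _ ((mem_gL b).2 (by rw [hhp]; exact subset_lieSpan _ (hodgeProj_mem b)))
    rw [Matrix.toLin'_apply, Matrix.mulVec_mulVec, ← h3, ← Matrix.mulVec_mulVec, hw r,
      Matrix.mulVec_smul]
  have hdim : ∀ S : Set (K →+* ℂ), finrank ℂ ((VS R S).map (Matrix.toLin' (hp (jMat b)))) =
      ∑ᶠ σ ∈ S, finrank ℂ (eigen ρ σ) := by
    intro S
    have h3 : (VS R S).map (Matrix.toLin' (hp (jMat b))) =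
        ⨆ σ ∈ S, (HS R σ).map (Matrix.toLin' (hp (jMat b))) := by
      unfold VS
      rw [Submodule.map_iSup]
      simp only [Submodule.map_iSup]
    rw [h3, finrank_iSup_mem (hind.mono hmapHS) S]
    refine finsum_congr fun σ => finsum_congr fun _ => ?_
    rw [hR3 σ, hhp]
  have hconst : ∀ σ : K →+* ℂ, finrank ℂ (HS R σ) = finrank ℂ (HS R σ₀) := fun σ =>
    mul_right_cancel₀ hfK.ne' ((hrank σ).trans (hrank σ₀).symm)
  have hW : finrank ℂ (VS R (conjOver M' σ₀)) = l ^ k := by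
    have h3 : finrank ℂ (VS R (conjOver M' σ₀)) =
        Nat.card (conjOver M' σ₀) * finrank ℂ (HS R σ₀) := finrank_VS_const hind hconst _
    have h4 : finrank ℂ (VS R (conjOver M' σ₀)) * finrank ℚ K = l ^ k * finrank ℚ K := by
      rw [h3, ← hk, mul_assoc, hrank, mul_comm]
    exact mul_right_cancel₀ hfK.ne' h4
  obtain ⟨T, hTm, hTT, hTg, hTs, hfull⟩ := lefschetz (mtData b hE') (simple_gL b hE' hsimple) hR2
    c hc hF M M' hMM σ₀ hS hl hW (by
      rcases hM with h3 | h3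
      · left
        have h4 := hrank σ₀
        rw [h3] at h4
        exact Nat.eq_of_mul_eq_mul_right hfK (by rw [h4, one_mul])
      · exact Or.inr h3) (by
      intro σ h3 h4 w hw
      have h5 := hR3 σ
      rw [h0 σ h3 h4, finrank_bot] at h5
      have h6 : (HS R σ).map (Matrix.toLin' (hodgeProj b)) = ⊥ :=
        Submodule.finrank_eq_zero.1 h5.symm
      have h7 : Matrix.toLin' (hodgeProj b) w ∈ (HS R σ).map (Matrix.toLin' (hodgeProj b)) :=
        ⟨w, hw, rfl⟩
      rw [h6, Submodule.mem_bot, Matrix.toLin'_apply] at h7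
      rw [hhp]
      exact h7) (by rw [hdim]; exact hla) (by
      rw [hdim, hcard]
      intro h3
      apply h2
      omega)
  have hVpos : 0 < finrank ℂ V := by
    by_contra hcon
    have h3 : finrank ℂ V = 0 := by omega
    rw [h3, mul_zero, zero_mul] at hk
    have h4 : 0 < l ^ k * finrank ℚ K := Nat.mul_pos (pow_pos hl.pos k) hfK
    omega
  have hx : ∃ x : Fin (finrank ℤ Λ) → ℂ, x ≠ 0 := by
    have h3 : 0 < finrank ℤ Λ := by
      rw [← Fintype.card_fin (finrank ℤ Λ), hcard]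
      omega
    refine ⟨fun _ => 1, fun h => ?_⟩
    exact one_ne_zero (congrFun h ⟨0, h3⟩)
  refine hodge_powers b hE' hx one_ne_zero (T := Matrix.toLin' T) ?_ ?_ hTm
    ((skew_iff b T).2 (by rw [hTs, neg_add_cancel])) ?_ n j
  · rw [Module.End.mul_eq_comp, ← Matrix.toLin'_mul, hTT, map_smul, Matrix.toLin'_one]
    rfl
  · rintro e he
    obtain ⟨x, rfl⟩ : ∃ x : Matrix _ _ ℂ, e = Matrix.toLin' x :=
      ⟨LinearMap.toMatrix' e, (Matrix.toLin'_toMatrix' e).symm⟩
    have h3 : x ∈ gL b := subset_lieSpan _ he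
    rw [Module.End.mul_eq_comp, Module.End.mul_eq_comp, ← Matrix.toLin'_mul,
      ← Matrix.toLin'_mul, hTg x h3]
  · intro D hD hz
    obtain ⟨M, rfl⟩ : ∃ x : Matrix _ _ ℂ, D = Matrix.toLin' x :=
      ⟨LinearMap.toMatrix' D, (Matrix.toLin'_toMatrix' D).symm⟩
    refine hfull M ((skew_iff b M).1 hD) fun Z hZ => ?_
    have h3 := hz (Matrix.toLin' Z) (by
      rintro _ ⟨σ, rfl⟩
      have h4 := hZ ((hodgeProj b).map σ) (subset_lieSpan _ ⟨σ, rfl⟩)
      rw [Module.End.mul_eq_comp, Module.End.mul_eq_comp, ← Matrix.toLin'_mul,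
        ← Matrix.toLin'_mul, h4])
    rw [Module.End.mul_eq_comp, Module.End.mul_eq_comp, ← Matrix.toLin'_mul,
      ← Matrix.toLin'_mul] at h3
    exact (Matrix.toLin' (R := ℂ)).injective h3

end Pool.Agent.PrimeSig
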