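import Pool.Agent.PrimeSig.Sym
import Pool.Agent.PrimeSig.Decomp
import Pool.Agent.CoprimeSig.Opp
import Pool.Agent.CoprimeSig.Move

/-!
# The typed symmetries permute the weight spaces transitively
-/

set_option autoImplicit false

namespace Pool.Agent.PrimeSig

open Module Pool.Agent.CoprimeSig

variable {ι : Type} [Fintype ι] [DecidableEq ι] {g t : Submodule ℂ (Matrix ι ι ℂ)}
  {K : Type} [Field K] [NumberField K] {R : K →+* Matrix ι ι ℚ}

/-- Transitivity on all weight spaces of a simple representation. -/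
theorem pt_trans (C : Cartan (endo g) (endo t)) (ht : ∀ σ : ℂ →+* ℂ, ∀ x ∈ t, x.map σ ∈ t)
    (hK : ∀ x ∈ endo g, ∀ σ, ∀ w ∈ HS R σ, x w ∈ HS R σ) (hs : Simple g) (c : ℂ)
    (O : Set (Pt (endo t) R c)) (hne : O.Nonempty)
    (hst : ∀ s τ, TSym (endo t) R s τ → ∀ p ∈ O, ∀ q : Pt (endo t) R c,
      s (Wp p) = Wp q → q.1 = τ.comp p.1 → q ∈ O) : O = Set.univ := by
  have hKt : ∀ x ∈ endo t, ∀ σ, ∀ w ∈ HS R σ, x w ∈ HS R σ := fun x hx => hK x (C.le hx)
  have h0 : ∀ x ∈ endo g, ∀ w ∈ (⊥ : Submodule ℂ (ι → ℂ)), x w ∈ (⊥ : Submodule ℂ (ι → ℂ)) := by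
    intro x _ w hw
    rw [(Submodule.mem_bot ℂ).1 hw, map_zero]
    exact Submodule.zero_mem _
  set U : Submodule ℂ (ι → ℂ) := ⨆ p ∈ O, Wp p with hU
  have hle : ∀ p ∈ O, Wp p ≤ U := fun p hp => le_iSup₂_of_le p hp le_rfl
  -- an operator which maps the weight spaces in `O` into `U` preserves `U`
  have hmaps : ∀ x : End ℂ (ι → ℂ), (∀ p ∈ O, ∀ u ∈ Wp p, x u ∈ U) → ∀ u ∈ U, x u ∈ U := by
    intro x hx
    have h1 : U ≤ U.comap x := iSup₂_le fun p hp u hu => hx p hp u hu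
    exact fun u hu => h1 hu
  have hsym : ∀ s τ, TSym (endo t) R s τ → ∀ p ∈ O, s (Wp p) ≤ U := by
    intro s τ h p hp
    obtain ⟨π, _, hπ, hπ1⟩ := tsym_act C.toTor hKt h
    rw [hπ]
    exact hle _ (hst s τ h p hp _ (hπ p) (hπ1 p))
  have hroot : ∀ x : End ℂ (ι → ℂ), ∀ α : End ℂ (ι → ℂ) → ℂ, IsRoot (endo g) (endo t) α x →
      ∀ u ∈ U, x u ∈ U := by
    intro x α hα
    refine hmaps x fun p hp u hu => ?_
    by_cases hxu : x u = 0
    · rw [hxu]
      exact U.zero_mem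
    by_cases hε : ∃ ε ∈ EE (endo t) ⊥ c, α ε ≠ 0
    · obtain ⟨ε, hε, hαε⟩ := hε
      have hx0 : x ≠ 0 := by
        rintro rfl
        exact hxu rfl
      obtain ⟨h2, y, P⟩ := exists_opp C hα hx0 hε.1 hε.2.1 hαε
      exact hsym _ _ (tsym_wl C hK P) p hp
        (root_move C (fun x hx => hK x hx p.1) h0 P hε h2 hu hxu)
    · push Not at hε
      refine hle p hp ⟨hK x hα.mem p.1 u hu.1, fun y hy => ?_⟩
      have h2 : y (x u) = x (y u) := by
        have h3 := hα.root y hy.1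
        rw [hε y hy, zero_smul, sub_eq_zero] at h3
        exact LinearMap.congr_fun h3 u
      rw [h2]
      exact ⟨fun h => by rw [(hu.2 y hy).1 h], fun h => by rw [(hu.2 y hy).2 h, map_zero]⟩
  have hg : ∀ x ∈ endo g, ∀ u ∈ U, x u ∈ U := by
    intro x hx
    let N : Submodule ℂ (End ℂ (ι → ℂ)) :=
      { carrier := {x | ∀ u ∈ U, x u ∈ U}
        add_mem' := fun {a b} ha hb u hu => U.add_mem (ha u hu) (hb u hu)
        zero_mem' := fun u _ => U.zero_mem
        smul_mem' := fun r a ha u hu => U.smul_mem r (ha u hu) }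
    have h1 : Submodule.span ℂ {z | ∃ α, IsRoot (endo g) (endo t) α z} ≤ N :=
      Submodule.span_le.mpr fun z ⟨α, hz⟩ => hroot z α hz
    exact h1 (mem_span_roots C hx)
  have hcj : ∀ (τ : ℂ →+* ℂ), ∀ u ∈ U, (fun i => τ (u i)) ∈ U := by
    intro τ
    have h1 : cj τ U ≤ U := by
      rw [hU, ← sSup_image, cj_sSup]
      refine sSup_le ?_
      rintro _ ⟨_, ⟨p, hp, rfl⟩, rfl⟩
      rw [sSup_image]
      exact hsym _ _ (tsym_cj R ht τ) p hp
    intro u hu
    exact h1 (mem_cj hu)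
  have hUne : U ≠ ⊥ := by
    obtain ⟨p, hp⟩ := hne
    intro h1
    have h2 := hle p hp
    rw [h1] at h2
    exact p.2.2.2 (le_bot_iff.mp h2)
  have hUtop : U = ⊤ := by
    refine (hs U hcj (fun x hx u hu => ?_)).resolve_left hUne
    have h1 := hg _ (mem_endo.2 hx) u hu
    rwa [Matrix.toLin'_apply] at h1
  refine Set.eq_univ_of_forall fun q => ?_
  by_contra hqO
  have h1 := Wp_indep (R := R) (c := c) C.toTor hKt q
  have h2 : Wp q ≤ ⨆ (p : Pt (endo t) R c) (_ : p ≠ q), Wp p := by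
    have h3 : Wp q ≤ U := by
      rw [hUtop]
      exact le_top
    refine h3.trans (iSup₂_le fun p hp => ?_)
    refine le_iSup₂_of_le (f := fun (p : Pt (endo t) R c) (_ : p ≠ q) => Wp p) p ?_ le_rfl
    rintro rfl
    exact hqO hp
  exact q.2.2.2 (le_bot_iff.mp (h1 le_rfl h2))

end Pool.Agent.PrimeSig
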