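import Pool.Agent.PrimeSig.Defs
import Pool.Agent.CoprimeSig.WlSym

/-!
# Typed symmetries: composition, Weyl group elements, field endomorphisms
-/

set_option autoImplicit false

namespace Pool.Agent.PrimeSig

open Module Pool.Agent.CoprimeSig

variable {ι : Type} [Fintype ι] [DecidableEq ι] {K : Type} [Field K] {R : K →+* Matrix ι ι ℚ}

section

variable {t : Submodule ℂ (End ℂ (ι → ℂ))} {s s' : Submodule ℂ (ι → ℂ) → Submodule ℂ (ι → ℂ)}
  {τ τ' : ℂ →+* ℂ}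

theorem TSym.mono (h : TSym t R s τ) {U V : Submodule ℂ (ι → ℂ)} (hUV : U ≤ V) : s U ≤ s V := by
  have h1 := h.sup {U, V}
  have h2 : sSup ({U, V} : Set (Submodule ℂ (ι → ℂ))) = V := by
    rw [sSup_pair]; exact sup_eq_right.mpr hUV
  rw [h2] at h1
  rw [h1]
  exact le_sSup ⟨U, Set.mem_insert _ _, rfl⟩

/-- A typed symmetry which respects `W'` and `W''` is a symmetry. -/
theorem TSym.isSym (h : TSym t R s τ) {W' W'' : Submodule ℂ (ι → ℂ)} (h1 : s W' ≤ W')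
    (h2 : s W'' ≤ W'') : IsSym t W' W'' s where
  sup := h.sup
  rank := h.rank
  fst := h1
  snd := h2
  idem := by
    classical
    obtain ⟨φ, hinj, hφ⟩ := h.idem
    refine ⟨fun y => if y ∈ t ∧ y * y = y then φ y else y, ?_, ?_⟩
    · intro a ha b hb hab
      simp only at hab
      by_cases h3 : a ∈ t ∧ a * a = a
      · by_cases h4 : b ∈ t ∧ b * b = b
        · rw [if_pos h3, if_pos h4] at hab
          exact hinj h3 h4 hab
        · rw [if_pos h3, if_neg h4] at hab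
          exfalso
          apply h4
          refine ⟨hb, ?_⟩
          rw [← hab]
          exact (hφ a h3.1 h3.2).2.1
      · by_cases h4 : b ∈ t ∧ b * b = b
        · rw [if_neg h3, if_pos h4] at hab
          exfalso
          apply h3
          refine ⟨ha, ?_⟩
          rw [hab]
          exact (hφ b h4.1 h4.2).2.1
        · rwa [if_neg h3, if_neg h4] at hab
    · intro y hy hyy
      simp only
      rw [if_pos ⟨hy, hyy⟩]
      exact hφ y hy hyy

theorem TSym.comp (h : TSym t R s τ) (h' : TSym t R s' τ') :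
    TSym t R (s ∘ s') (τ.comp τ') where
  sup := by
    intro S
    rw [Function.comp_apply, h'.sup, h.sup, Set.image_image]
    rfl
  rank := by
    intro U
    rw [Function.comp_apply, h.rank, h'.rank]
  typed := by
    intro σ
    rw [Function.comp_apply, RingHom.comp_assoc]
    exact (h.mono (h'.typed σ)).trans (h.typed _)
  idem := by
    obtain ⟨φ, hinj, hφ⟩ := h.idem
    obtain ⟨φ', hinj', hφ'⟩ := h'.idem
    refine ⟨φ ∘ φ', ?_, ?_⟩
    · rintro a ⟨ha, haa⟩ b ⟨hb, hbb⟩ hab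
      obtain ⟨h1, h2, -⟩ := hφ' a ha haa
      obtain ⟨h3, h4, -⟩ := hφ' b hb hbb
      exact hinj' ⟨ha, haa⟩ ⟨hb, hbb⟩ (hinj ⟨h1, h2⟩ ⟨h3, h4⟩ hab)
    · intro y hy hyy
      obtain ⟨h1, h2, h3, h4, h5⟩ := hφ' y hy hyy
      obtain ⟨k1, k2, k3, k4, k5⟩ := hφ _ h1 h2
      exact ⟨k1, k2, k3.trans h3, fun U hU => k4 _ (h4 U hU), fun U hU => k5 _ (h5 U hU)⟩

theorem TSym.id (t : Submodule ℂ (End ℂ (ι → ℂ))) (R : K →+* Matrix ι ι ℚ) :
    TSym t R id (RingHom.id ℂ) where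
  sup := fun S => by rw [Set.image_id]; rfl
  rank := fun U => rfl
  typed := fun σ => by rw [RingHom.id_comp]; exact le_rfl
  idem := ⟨_root_.id, fun _ _ _ _ h => h, fun y hy hyy => ⟨hy, hyy, rfl, fun U hU => hU,
    fun U hU => hU⟩⟩

theorem TSym.VS_le (h : TSym t R s τ) {S S' : Set (K →+* ℂ)} (hS : ∀ σ ∈ S, τ.comp σ ∈ S') :
    s (VS R S) ≤ VS R S' := by
  have h1 : VS R S = sSup {U | ∃ σ ∈ S, U = HS R σ} := by
    apply le_antisymm
    · exact iSup₂_le fun σ hσ => le_sSup ⟨σ, hσ, rfl⟩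
    · refine sSup_le ?_
      rintro _ ⟨σ, hσ, rfl⟩
      exact le_iSup₂_of_le σ hσ le_rfl
  rw [h1, h.sup]
  refine sSup_le ?_
  rintro _ ⟨_, ⟨σ, hσ, rfl⟩, rfl⟩
  exact (h.typed σ).trans (le_iSup₂_of_le (τ.comp σ) (hS σ hσ) le_rfl)

end

section

variable {g t : Submodule ℂ (Matrix ι ι ℂ)}

/-- The conjugation by a field endomorphism is a typed symmetry. -/
theorem tsym_cj (R : K →+* Matrix ι ι ℚ) (ht : ∀ σ : ℂ →+* ℂ, ∀ x ∈ t, x.map σ ∈ t)
    (τ : ℂ →+* ℂ) : TSym (endo t) R (cj τ) τ := by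
  have h1 := isSym_cj (W' := ⊥) (W'' := ⊥) ht τ (by rw [cj_le_iff]; exact bot_le)
    (by rw [cj_le_iff]; exact bot_le)
  obtain ⟨φ, hinj, hφ⟩ := h1.idem
  exact ⟨h1.sup, h1.rank, fun σ => cj_HS_le τ R σ, φ, hinj.mono fun y hy => hy.1, hφ⟩

/-- A Weyl group element is a typed symmetry. -/
theorem tsym_wl (C : Cartan (endo g) (endo t))
    (hK : ∀ x ∈ endo g, ∀ σ, ∀ w ∈ HS R σ, x w ∈ HS R σ)
    {α : End ℂ (ι → ℂ) → ℂ} {x y : End ℂ (ι → ℂ)} (P : Opp (endo g) (endo t) α x y) :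
    TSym (endo t) R (fun U => U.map (wl x y)) (RingHom.id ℂ) := by
  have h0 : ∀ x ∈ endo g, ∀ w ∈ (⊥ : Submodule ℂ (ι → ℂ)), x w ∈ (⊥ : Submodule ℂ (ι → ℂ)) := by
    intro x _ w hw
    rw [(Submodule.mem_bot ℂ).1 hw, map_zero]
    exact Submodule.zero_mem _
  have h1 := isSym_wl C h0 h0 P
  obtain ⟨φ, hinj, hφ⟩ := h1.idem
  refine ⟨h1.sup, h1.rank, fun σ => ?_, φ, hinj.mono fun y hy => hy.1, hφ⟩
  rw [RingHom.id_comp]
  exact (isSym_wl C (fun x hx => hK x hx σ) h0 P).fst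

end

end Pool.Agent.PrimeSig
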